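import Pool.Agent.Q235.SN.PosN

/-!
Project SN: a thinly degenerate closed two-form on a closed `2 n`-manifold becomes symplectic after
the addition of a small exact form.
-/

set_option autoImplicit false

open Set Filter Topology MeasureTheory
open scoped Manifold ContDiff

noncomputable section

namespace Pool.Agent.Q235.SN

open Pool.Agent.Y501.SYP
open Pool.Agent.Q235.SZ (SmallFor)

theorem exists_time {X : Type} [TopologicalSpace X] [CompactSpace X] {c : X → ℝ} {g : ℝ × X → ℝ}
    (hc : Continuous c) (hg : Continuous g) (h0 : ∀ x, 0 ≤ c x)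
    (hpos : ∀ x, c x = 0 → 0 < g (0, x)) :
    ∃ t₀ : ℝ, 0 < t₀ ∧ ∀ t : ℝ, 0 < t → t ≤ t₀ → ∀ x, 0 < c x + t * g (t, x) := by
  have hloc : ∀ x ∈ (univ : Set X), ∀ᶠ q : ℝ × X in 𝓝 (0, x),
      0 < q.1 → 0 < c q.2 + q.1 * g (q.1, q.2) := by
    intro x _
    by_cases hx : c x = 0
    · have h1 : ∀ᶠ q : ℝ × X in 𝓝 (0, x), 0 < g q :=
        (isOpen_lt continuous_const hg).mem_nhds (hpos x hx)
      filter_upwards [h1] with q hq ht
      have h2 := mul_pos ht hq
      have h3 := h0 q.2
      exact add_pos_of_nonneg_of_pos h3 h2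
    · have h2 : 0 < c x := lt_of_le_of_ne (h0 x) (Ne.symm hx)
      have h3 : Continuous fun q : ℝ × X => c q.2 + q.1 * g (q.1, q.2) := by
        fun_prop
      have h4 : ∀ᶠ q : ℝ × X in 𝓝 (0, x), 0 < c q.2 + q.1 * g (q.1, q.2) :=
        (isOpen_lt continuous_const h3).mem_nhds (by simpa using h2)
      filter_upwards [h4] with q hq _ using hq
  have h := isCompact_univ.eventually_forall_of_forall_eventually
    (P := fun t x => 0 < t → 0 < c x + t * g (t, x)) hloc
  obtain ⟨δ, hδ, hb⟩ := Metric.eventually_nhds_iff.1 h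
  refine ⟨δ / 2, by positivity, fun t ht htδ x => ?_⟩
  refine hb (y := t) ?_ x (mem_univ x) ht
  rw [Real.dist_eq, sub_zero, abs_of_pos ht]
  linarith

section

variable {d m : ℕ} {X : Type} [TopologicalSpace X] [ChartedSpace (ES d) X]

/-- the family of forms of the difference -/
def famF (σ η : Form (ES d) X 2) (t : ℝ) (i k : Fin (m + 1)) : Form (ES d) X 2 :=
  fun x => fam (V := ES d) (σ x) (η x) t i k

theorem famF_JC [IsManifold 𝓘(ℝ, ES d) ∞ X] {σ η : Form (ES d) X 2} (hσ : IsSmooth σ)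
    (hη : IsSmooth η) (i k : Fin (m + 1)) : JC (fun t : ℝ => famF σ η t i k) := by
  by_cases h1 : k < i
  · have : (fun t : ℝ => famF σ η t i k) = fun t x => σ x + t • η x := by
      funext t x
      exact if_pos h1
    rw [this]
    exact JC.line hσ hη
  · by_cases h2 : k = i
    · have : (fun t : ℝ => famF σ η t i k) = fun _ => η := by
        funext t x
        exact (if_neg h1).trans (if_pos h2)
      rw [this]
      exact JC.const hη
    · have : (fun t : ℝ => famF σ η t i k) = fun _ => σ := by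
        funext t x
        exact (if_neg h1).trans (if_neg h2)
      rw [this]
      exact JC.const hσ

/-- the sum `σ + t η` -/
def lineF (σ η : Form (ES d) X 2) (t : ℝ) : Form (ES d) X 2 := fun x => σ x + t • η x

theorem ratN_line (e : Module.Basis (Fin (m + 1) × Bool) ℝ (ES d)) (τ σ η : Form (ES d) X 2)
    (t : ℝ) (x : X) : ratN e τ (fun _ : Fin (m + 1) => lineF σ η t) x =
      ratN e τ (fun _ : Fin (m + 1) => σ) x + t * ∑ i, ratN e τ (famF σ η t i) x := by
  unfold ratN
  have h1 := top_add (n := m + 1) (V := ES d) (σ x) (η x) t e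
  have h2 : (wedN (V := ES d) (fun _ : Fin (m + 1) => lineF σ η t x)) e =
      top (n := m + 1) (V := ES d) (σ x) e +
      t * ∑ i, wedN (V := ES d) (fam (V := ES d) (σ x) (η x) t i) e := h1
  rw [← Finset.sum_div, ← mul_div_assoc, ← add_div]
  congr 1

theorem ratN_line0 (e : Module.Basis (Fin (m + 1) × Bool) ℝ (ES d)) (τ σ η : Form (ES d) X 2)
    (x : X) : ∑ i, ratN e τ (famF (m := m) σ η 0 i) x =
      (m + 1) * ratN e τ (Function.update (fun _ : Fin (m + 1) => σ) 0 η) x := by
  unfold ratN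
  have h1 := sum_fam_zero (m := m) (V := ES d) (σ x) (η x) e
  have h : (fun i : Fin (m + 1) => (Function.update (fun _ : Fin (m + 1) => σ) 0 η) i x) =
      Function.update (fun _ : Fin (m + 1) => σ x) 0 (η x) := by
    funext i
    by_cases hi : i = 0
    · subst hi
      rw [Function.update_self, Function.update_self]
    · rw [Function.update_of_ne hi, Function.update_of_ne hi]
  rw [← Finset.sum_div, h, ← mul_div_assoc]
  congr 1

variable [IsManifold 𝓘(ℝ, ES d) ∞ X]

theorem push_one [CompactSpace X] [T2Space X]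
    (e : Module.Basis (Fin (m + 1) × Bool) ℝ (ES d)) {τ σ : Form (ES d) X 2} (hτs : IsSmooth τ)
    (hτ : ∀ x, top (n := m + 1) (V := ES d) (τ x) e ≠ 0) (hσ : IsSmooth σ)
    (hnn : ∀ x, 0 ≤ ratN e τ (fun _ : Fin (m + 1) => σ) x) (D : Set X)
    (hD0 : D = {x | ratN e τ (fun _ : Fin (m + 1) => σ) x = 0})
    (hne : ∀ z ∈ D, ∃ u : Fin m × Bool → ES d, top (n := m) (V := ES d) (σ z) u ≠ 0)
    (hsmall : ∀ z ∈ D, SmallFor σ (connectedComponentIn D z) z) :
    ∃ (α : Form (ES d) X 1) (η : Form (ES d) X 2), IsSmooth α ∧ IsSmooth η ∧ IsD α η ∧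
      IsClosedForm η ∧ ∃ t₀ : ℝ, 0 < t₀ ∧ ∀ t : ℝ, 0 < t → t ≤ t₀ → ∀ x,
        0 < ratN e τ (fun _ : Fin (m + 1) => lineF σ η t) x := by
  obtain ⟨α, η, h1, h2, h3, h4, h5⟩ := exists_pos e hτs hτ hσ D hD0 hne hsmall
  refine ⟨α, η, h1, h2, h3, h4, ?_⟩
  have hg : Continuous fun q : ℝ × X => ∑ i, ratN e τ (famF (m := m) σ η q.1 i) q.2 :=
    continuous_finsetSum _ fun i _ =>
      ratN_cont (B := ℝ) e hτs hτ (s := fun t => famF (m := m) σ η t i) (famF_JC hσ h2 i)
  obtain ⟨t₀, ht₀, h6⟩ := exists_time (ratN_cont1 e hτs hτ hσ) hg hnn (by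
    intro x hx
    rw [ratN_line0]
    have hxD : x ∈ D := by
      rw [hD0]
      exact hx
    have := h5 x hxD
    positivity)
  refine ⟨t₀, ht₀, fun t ht htt x => ?_⟩
  rw [ratN_line]
  exact h6 t ht htt x

end

end Pool.Agent.Q235.SN
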