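import Pool.Agent.Q235.SZ.W4

/-!
Project SN: products of `n` alternating two-forms in dimension `2 n`.
-/

set_option autoImplicit false

open Set Filter Topology

noncomputable section

namespace Pool.Agent.Q235.SN

open Pool.Agent.Q235.SZ (a_swap a_self a_add_right a_add_left a_smul_right a_smul_left)

section

variable {V : Type} [NormedAddCommGroup V] [NormedSpace ℝ V]

/-- product of the values on the pairs -/
def prd {n : ℕ} (a : Fin n → V [⋀^Fin 2]→L[ℝ] ℝ) (v : Fin n × Bool → V) : ℝ :=
  ∏ i, a i ![v (i, false), v (i, true)]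

theorem prd_update {n : ℕ} (a : Fin n → V [⋀^Fin 2]→L[ℝ] ℝ) (v : Fin n × Bool → V) (i : Fin n)
    (b : Bool) (x : V) : prd a (Function.update v (i, b) x) =
      (cond b (a i ![v (i, false), x]) (a i ![x, v (i, true)])) *
        ∏ j ∈ Finset.univ.erase i, a j ![v (j, false), v (j, true)] := by
  unfold prd
  rw [← Finset.mul_prod_erase Finset.univ _ (Finset.mem_univ i)]
  congr 1
  · cases b
    · simp [Function.update]
    · simp [Function.update]
  · refine Finset.prod_congr rfl fun j hj => ?_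
    have hji : j ≠ i := Finset.ne_of_mem_erase hj
    rw [Function.update_of_ne (by simp [hji]), Function.update_of_ne (by simp [hji])]

/-- the product as a multilinear map -/
def prdM {n : ℕ} (a : Fin n → V [⋀^Fin 2]→L[ℝ] ℝ) :
    MultilinearMap ℝ (fun _ : Fin n × Bool => V) ℝ where
  toFun := prd a
  map_update_add' := by
    intro hd v ⟨i, b⟩ x y
    have : hd = instDecidableEqProd := Subsingleton.elim _ _
    subst this
    rw [prd_update, prd_update, prd_update]
    cases b
    · simp only [cond_false, a_add_left]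
      ring
    · simp only [cond_true, a_add_right]
      ring
  map_update_smul' := by
    intro hd v ⟨i, b⟩ c x
    have : hd = instDecidableEqProd := Subsingleton.elim _ _
    subst this
    rw [prd_update, prd_update, smul_eq_mul]
    cases b
    · simp only [cond_false, a_smul_left]
      ring
    · simp only [cond_true, a_smul_right]
      ring

/-- the product of `n` two-forms, up to a positive factor -/
def wedN {n : ℕ} (a : Fin n → V [⋀^Fin 2]→L[ℝ] ℝ) : V [⋀^(Fin n × Bool)]→ₗ[ℝ] ℝ :=
  MultilinearMap.alternatization (prdM a)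

theorem wedN_apply {n : ℕ} (a : Fin n → V [⋀^Fin 2]→L[ℝ] ℝ) (v : Fin n × Bool → V) :
    wedN a v = ∑ σ : Equiv.Perm (Fin n × Bool),
      ((Equiv.Perm.sign σ : ℤ) : ℝ) * ∏ i, a i ![v (σ (i, false)), v (σ (i, true))] := by
  unfold wedN
  rw [MultilinearMap.alternatization_apply]
  refine Finset.sum_congr rfl fun σ _ => ?_
  have h1 : (prdM a).domDomCongr σ v = ∏ i, a i ![v (σ (i, false)), v (σ (i, true))] := rfl
  rw [h1]
  rcases Int.units_eq_one_or (Equiv.Perm.sign σ) with h | h <;> rw [h] <;> simp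

/-- the `n`-th power -/
def top {n : ℕ} (a : V [⋀^Fin 2]→L[ℝ] ℝ) : V [⋀^(Fin n × Bool)]→ₗ[ℝ] ℝ := wedN fun _ => a

/-- the top power of a degenerate form vanishes -/
theorem top_degenerate {n : ℕ} (e : Module.Basis (Fin n × Bool) ℝ V) (a : V [⋀^Fin 2]→L[ℝ] ℝ)
    {v : V} (hv : v ≠ 0) (hw : ∀ w, a ![v, w] = 0) : top a e = 0 := by
  have h1 : e.repr v ≠ 0 := fun h0 => hv (by simpa using h0)
  obtain ⟨i, hi⟩ : ∃ i, e.repr v i ≠ 0 := by
    by_contra hc
    push Not at hc
    exact h1 (Finsupp.ext hc)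
  have h2 : top a (Function.update e i v) = e.repr v i * top a e := by
    have h3 : v = ∑ j, e.repr v j • e j := (e.sum_repr v).symm
    have h4 := (top a).map_update_sum (m := ⇑e) (i := i) Finset.univ (fun j => e.repr v j • e j)
    rw [← h3] at h4
    rw [h4]
    rw [Finset.sum_eq_single i]
    · rw [AlternatingMap.map_update_smul, Function.update_eq_self, smul_eq_mul]
    · intro j _ hj
      rw [AlternatingMap.map_update_smul, (top a).map_eq_zero_of_eq _ (i := i) (j := j) _ hj.symm,
        smul_zero]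
      rw [Function.update_self, Function.update_of_ne hj]
    · intro h; exact absurd (Finset.mem_univ i) h
  have h3 : top a (Function.update e i v) = 0 := by
    unfold top
    rw [wedN_apply]
    refine Finset.sum_eq_zero fun σ _ => ?_
    have hw' : ∀ w, a ![w, v] = 0 := fun w => by rw [a_swap, hw, neg_zero]
    obtain ⟨⟨k, b⟩, hk⟩ := σ.surjective i
    have h5 : a ![Function.update (⇑e) i v (σ (k, false)), Function.update (⇑e) i v (σ (k, true))]
        = 0 := by
      cases b
      · rw [hk, Function.update_self, hw]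
      · rw [hk, Function.update_self, hw']
    rw [Finset.prod_eq_zero (Finset.mem_univ k) h5, mul_zero]
  rw [h3] at h2
  exact (mul_eq_zero.1 h2.symm).resolve_left hi

/-- permuting the factors -/
theorem wedN_perm {n : ℕ} (a : Fin n → V [⋀^Fin 2]→L[ℝ] ℝ) (π : Equiv.Perm (Fin n))
    (v : Fin n × Bool → V) : wedN (a ∘ π) v = wedN a v := by
  let pp : Equiv.Perm (Fin n × Bool) := Equiv.prodCongrLeft fun _ : Bool => π
  have hs : Equiv.Perm.sign pp = 1 := by
    rw [Equiv.Perm.sign_prodCongrLeft]
    simp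
  rw [wedN_apply, wedN_apply, ← Equiv.sum_comp (Equiv.mulRight pp)]
  refine Finset.sum_congr rfl fun σ _ => ?_
  have h1 : (Equiv.mulRight pp) σ = σ * pp := rfl
  rw [h1, map_mul, hs, mul_one]
  congr 1
  exact Equiv.prod_comp π (fun k => a k ![v (σ (k, false)), v (σ (k, true))])

/-- the first form of the family is `η`, the others are `a` -/
theorem wedN_slot {m : ℕ} (a η : V [⋀^Fin 2]→L[ℝ] ℝ) (i : Fin (m + 1))
    (v : Fin (m + 1) × Bool → V) :
    wedN (Function.update (fun _ : Fin (m + 1) => a) i η) v =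
      wedN (Function.update (fun _ : Fin (m + 1) => a) 0 η) v := by
  have h1 : Function.update (fun _ : Fin (m + 1) => a) i η =
      Function.update (fun _ : Fin (m + 1) => a) 0 η ∘ (Equiv.swap 0 i) := by
    funext k
    by_cases hk : k = i
    · subst hk
      simp
    · rw [Function.update_of_ne hk]
      have : Equiv.swap 0 i k ≠ 0 := by
        intro h
        have h2 := congrArg (Equiv.swap 0 i) h
        rw [Equiv.swap_apply_self, Equiv.swap_apply_left] at h2
        exact hk h2
      simp [Function.update_of_ne this]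
  rw [h1, wedN_perm]

/-- the index set split into the first pair and the others -/
def splitE (m : ℕ) : Bool ⊕ (Fin m × Bool) ≃ Fin (m + 1) × Bool where
  toFun := Sum.elim (fun b => (0, b)) (fun q => (q.1.succ, q.2))
  invFun := fun q => Fin.cases (Sum.inl q.2) (fun j => Sum.inr (j, q.2)) q.1
  left_inv := by
    rintro (b | ⟨j, b⟩) <;> simp
  right_inv := by
    rintro ⟨i, b⟩
    refine Fin.cases ?_ (fun j => ?_) i <;> simp

/-- the frame `(y₁, y₂, u)` -/
def frm {m : ℕ} (y : Bool → V) (u : Fin m × Bool → V) : Fin (m + 1) × Bool → V :=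
  fun q => Fin.cases (y q.2) (fun j => u (j, q.2)) q.1

theorem frm_split {m : ℕ} (y : Bool → V) (u : Fin m × Bool → V) (q : Bool ⊕ (Fin m × Bool)) :
    frm y u (splitE m q) = Sum.elim y u q := by
  rcases q with b | ⟨j, b⟩ <;> rfl

/-- the value of `η ∧ a ∧ ... ∧ a` on a frame `(y₁, y₂, u)` with `η(·, u) = 0` -/
theorem wedN_frm {m : ℕ} (a η : V [⋀^Fin 2]→L[ℝ] ℝ) (y : Bool → V) (u : Fin m × Bool → V)
    (hη : ∀ (p : V) (k : Fin m × Bool), (p ∈ range y ∨ p ∈ range u) → η ![p, u k] = 0) :
    wedN (Function.update (fun _ : Fin (m + 1) => a) 0 η) (frm y u) =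
      2 * η ![y false, y true] * top (n := m) a u := by
  unfold top
  rw [wedN_apply, wedN_apply]
  -- the terms
  let T : Equiv.Perm (Bool ⊕ (Fin m × Bool)) → ℝ := fun ρ =>
    ((Equiv.Perm.sign ρ : ℤ) : ℝ) * (η ![Sum.elim y u (ρ (Sum.inl false)),
      Sum.elim y u (ρ (Sum.inl true))] * ∏ j : Fin m, a ![Sum.elim y u (ρ (Sum.inr (j, false))),
      Sum.elim y u (ρ (Sum.inr (j, true)))])
  have h1 : ∑ σ : Equiv.Perm (Fin (m + 1) × Bool), ((Equiv.Perm.sign σ : ℤ) : ℝ) *
      ∏ i, (Function.update (fun _ : Fin (m + 1) => a) 0 η) i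
        ![frm y u (σ (i, false)), frm y u (σ (i, true))] = ∑ ρ, T ρ := by
    rw [← Equiv.sum_comp (Equiv.permCongr (splitE m))]
    refine Finset.sum_congr rfl fun ρ _ => ?_
    have e0 : ∀ b, (Equiv.permCongr (splitE m) ρ) (0, b) = splitE m (ρ (Sum.inl b)) := by
      intro b
      rw [Equiv.permCongr_apply]
      rfl
    have e1 : ∀ (j : Fin m) b, (Equiv.permCongr (splitE m) ρ) (j.succ, b) =
        splitE m (ρ (Sum.inr (j, b))) := by
      intro j b
      rw [Equiv.permCongr_apply]
      rfl
    rw [Equiv.Perm.sign_permCongr, Fin.prod_univ_succ]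
    simp only [e0, e1, frm_split, Function.update_self]
    have e2 : ∀ j : Fin m, Function.update (fun _ : Fin (m + 1) => a) 0 η j.succ = a := fun j =>
      Function.update_of_ne (Fin.succ_ne_zero j) _ _
    simp only [e2]
    rfl
  rw [h1]
  -- the terms which do not preserve the splitting vanish
  have h2 : ∀ ρ : Equiv.Perm (Bool ⊕ (Fin m × Bool)),
      ρ ∉ Finset.univ.image (Equiv.Perm.sumCongrHom Bool (Fin m × Bool)) → T ρ = 0 := by
    intro ρ hρ
    have h3 : ¬ Set.MapsTo ρ (Set.range Sum.inl) (Set.range Sum.inl) := by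
      intro h
      obtain ⟨q, hq⟩ := Equiv.Perm.mem_sumCongrHom_range_of_perm_mapsTo_inl h
      exact hρ (Finset.mem_image.2 ⟨q, Finset.mem_univ _, hq⟩)
    have hmem : ∀ q : Bool ⊕ (Fin m × Bool), Sum.elim y u q ∈ range y ∨ Sum.elim y u q ∈ range u := by
      rintro (b | k)
      · exact Or.inl ⟨b, rfl⟩
      · exact Or.inr ⟨k, rfl⟩
    have h4 : η ![Sum.elim y u (ρ (Sum.inl false)), Sum.elim y u (ρ (Sum.inl true))] = 0 := by
      by_contra hne
      apply h3
      rintro _ ⟨b, rfl⟩
      by_contra hb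
      have h5 : ∃ k, ρ (Sum.inl b) = Sum.inr k := by
        rcases h : ρ (Sum.inl b) with c | k
        · exact absurd ⟨c, h.symm⟩ hb
        · exact ⟨k, rfl⟩
      obtain ⟨k, hk⟩ := h5
      cases b
      · rw [hk] at hne
        apply hne
        rw [a_swap]
        have := hη (Sum.elim y u (ρ (Sum.inl true))) k (hmem _)
        rw [Sum.elim_inr, this, neg_zero]
      · rw [hk] at hne
        exact hne (hη _ k (hmem _))
    change ((Equiv.Perm.sign ρ : ℤ) : ℝ) * (η ![Sum.elim y u (ρ (Sum.inl false)),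
      Sum.elim y u (ρ (Sum.inl true))] * _) = 0
    rw [h4, zero_mul, mul_zero]
  have h5 : ∑ ρ, T ρ = ∑ ρ ∈ Finset.univ.image (Equiv.Perm.sumCongrHom Bool (Fin m × Bool)), T ρ :=
    (Finset.sum_subset (Finset.subset_univ _) (fun ρ _ hρ => h2 ρ hρ)).symm
  rw [h5, Finset.sum_image Equiv.Perm.sumCongrHom_injective.injOn, Fintype.sum_prod_type]
  have h6 : ∀ (α : Equiv.Perm Bool) (β : Equiv.Perm (Fin m × Bool)),
      T (Equiv.Perm.sumCongrHom Bool (Fin m × Bool) (α, β)) =
      (((Equiv.Perm.sign α : ℤ) : ℝ) * η ![y (α false), y (α true)]) *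
        (((Equiv.Perm.sign β : ℤ) : ℝ) * ∏ j : Fin m, a ![u (β (j, false)), u (β (j, true))]) := by
    intro α β
    have e1 : Equiv.Perm.sign (Equiv.Perm.sumCongrHom Bool (Fin m × Bool) (α, β)) =
        Equiv.Perm.sign α * Equiv.Perm.sign β := Equiv.Perm.sign_sumCongr α β
    change ((Equiv.Perm.sign (Equiv.Perm.sumCongrHom Bool (Fin m × Bool) (α, β)) : ℤ) : ℝ) *
      (η ![y (α false), y (α true)] * ∏ j : Fin m, a ![u (β (j, false)), u (β (j, true))]) = _
    rw [e1]
    push_cast
    ring
  have h7 : ∑ α : Equiv.Perm Bool, ((Equiv.Perm.sign α : ℤ) : ℝ) * η ![y (α false), y (α true)] =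
      2 * η ![y false, y true] := by
    have h8 : (Finset.univ : Finset (Equiv.Perm Bool)) = {1, Equiv.swap false true} := by
      decide
    rw [h8, Finset.sum_pair (by decide)]
    simp
    rw [a_swap η (y true) (y false)]
    ring
  simp only [h6]
  rw [← Finset.sum_mul_sum, h7]

end

end Pool.Agent.Q235.SN
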