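import Pool.Agent.Q235.SN.PfN
import Pool.Agent.Y501.SY.Bridge

/-!
Project SN: the top power of `a + s b`, and the choice of a second covector.
-/

set_option autoImplicit false

open Set Filter Topology

noncomputable section

namespace Pool.Agent.Q235.SN

open Pool.Agent.Q235.SZ (a_swap a_self a_add_right a_add_left a_smul_right a_smul_left)

section

variable {V : Type} [NormedAddCommGroup V] [NormedSpace ℝ V]

/-- the factors of the `i`-th term of the difference of the top powers -/
def fam {n : ℕ} (a b : V [⋀^Fin 2]→L[ℝ] ℝ) (s : ℝ) (i : Fin n) (k : Fin n) :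
    V [⋀^Fin 2]→L[ℝ] ℝ :=
  if k < i then a + s • b else if k = i then b else a

theorem top_add {n : ℕ} (a b : V [⋀^Fin 2]→L[ℝ] ℝ) (s : ℝ) (v : Fin n × Bool → V) :
    top (n := n) (a + s • b) v = top (n := n) a v + s * ∑ i : Fin n, wedN (fam a b s i) v := by
  unfold top
  simp only [wedN_apply]
  rw [Finset.mul_sum]
  simp only [Finset.mul_sum]
  rw [Finset.sum_comm, ← Finset.sum_add_distrib]
  refine Finset.sum_congr rfl fun σ _ => ?_
  have h1 : ∀ i : Fin n, (a + s • b) ![v (σ (i, false)), v (σ (i, true))] =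
      a ![v (σ (i, false)), v (σ (i, true))] + s * b ![v (σ (i, false)), v (σ (i, true))] :=
    fun i => rfl
  simp only [h1]
  rw [Finset.prod_add_ordered, mul_add, Finset.mul_sum]
  congr 1
  refine Finset.sum_congr rfl fun i _ => ?_
  have h2 : ∏ k, fam a b s i k ![v (σ (k, false)), v (σ (k, true))] =
      (∏ k ∈ Finset.univ.filter (fun k => k < i), (a ![v (σ (k, false)), v (σ (k, true))] +
        s * b ![v (σ (k, false)), v (σ (k, true))])) *
      (b ![v (σ (i, false)), v (σ (i, true))] *
        ∏ k ∈ Finset.univ.filter (fun k => i < k), a ![v (σ (k, false)), v (σ (k, true))]) := by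
    rw [← Finset.prod_filter_mul_prod_filter_not Finset.univ (fun k => k < i)]
    congr 1
    · refine Finset.prod_congr rfl fun k hk => ?_
      rw [fam, if_pos (Finset.mem_filter.1 hk).2]
      rfl
    · have h3 : Finset.univ.filter (fun k : Fin n => ¬ k < i) =
          insert i (Finset.univ.filter (fun k => i < k)) := by
        ext k
        simp only [Finset.mem_filter, Finset.mem_univ, true_and, Finset.mem_insert, not_lt]
        rw [le_iff_eq_or_lt, eq_comm]
      rw [h3, Finset.prod_insert (by simp)]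
      congr 1
      · rw [fam, if_neg (lt_irrefl i), if_pos rfl]
      · refine Finset.prod_congr rfl fun k hk => ?_
        have h4 := (Finset.mem_filter.1 hk).2
        rw [fam, if_neg (not_lt.2 h4.le), if_neg (ne_of_gt h4)]
  rw [h2]
  ring

theorem fam_zero {n : ℕ} (a b : V [⋀^Fin 2]→L[ℝ] ℝ) (i : Fin n) :
    fam a b 0 i = Function.update (fun _ => a) i b := by
  funext k
  unfold fam
  by_cases hk : k = i
  · subst hk
    rw [if_neg (lt_irrefl k), if_pos rfl, Function.update_self]
  · rw [Function.update_of_ne hk, if_neg hk]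
    split_ifs
    · rw [zero_smul, add_zero]
    · rfl

/-- the product of `n` two-forms on a frame is a multiple of the determinant -/
theorem wedN_frame {n : ℕ} (e : Module.Basis (Fin n × Bool) ℝ V) (a : Fin n → V [⋀^Fin 2]→L[ℝ] ℝ)
    (v : Fin n × Bool → V) : wedN a v = wedN a e * e.det v := by
  have h := AlternatingMap.eq_smul_basis_det e (wedN a)
  conv_lhs => rw [h]
  rfl

/-- linearity in the first factor -/
theorem wedN_add {m : ℕ} (a b c : V [⋀^Fin 2]→L[ℝ] ℝ) (v : Fin (m + 1) × Bool → V) :
    wedN (Function.update (fun _ : Fin (m + 1) => a) 0 (b + c)) v =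
      wedN (Function.update (fun _ : Fin (m + 1) => a) 0 b) v +
      wedN (Function.update (fun _ : Fin (m + 1) => a) 0 c) v := by
  simp only [wedN_apply]
  rw [← Finset.sum_add_distrib]
  refine Finset.sum_congr rfl fun σ _ => ?_
  rw [Fin.prod_univ_succ, Fin.prod_univ_succ, Fin.prod_univ_succ]
  have e2 : ∀ (η : V [⋀^Fin 2]→L[ℝ] ℝ) (j : Fin m),
      Function.update (fun _ : Fin (m + 1) => a) 0 η j.succ = a := fun η j =>
    Function.update_of_ne (Fin.succ_ne_zero j) _ _
  simp only [e2, Function.update_self]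
  have h1 : (b + c) ![v (σ (0, false)), v (σ (0, true))] =
      b ![v (σ (0, false)), v (σ (0, true))] + c ![v (σ (0, false)), v (σ (0, true))] := rfl
  rw [h1]
  ring

theorem wedN_smul {m : ℕ} (a b : V [⋀^Fin 2]→L[ℝ] ℝ) (r : ℝ) (v : Fin (m + 1) × Bool → V) :
    wedN (Function.update (fun _ : Fin (m + 1) => a) 0 (r • b)) v =
      r * wedN (Function.update (fun _ : Fin (m + 1) => a) 0 b) v := by
  simp only [wedN_apply]
  rw [Finset.mul_sum]
  refine Finset.sum_congr rfl fun σ _ => ?_
  rw [Fin.prod_univ_succ, Fin.prod_univ_succ]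
  have e2 : ∀ (η : V [⋀^Fin 2]→L[ℝ] ℝ) (j : Fin m),
      Function.update (fun _ : Fin (m + 1) => a) 0 η j.succ = a := fun η j =>
    Function.update_of_ne (Fin.succ_ne_zero j) _ _
  simp only [e2, Function.update_self]
  have h1 : (r • b) ![v (σ (0, false)), v (σ (0, true))] =
      r * b ![v (σ (0, false)), v (σ (0, true))] := rfl
  rw [h1]
  ring

/-- the derivative of the top power is the product with the first slot replaced -/
theorem sum_fam_zero {m : ℕ} (a b : V [⋀^Fin 2]→L[ℝ] ℝ) (v : Fin (m + 1) × Bool → V) :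
    ∑ i : Fin (m + 1), wedN (fam a b 0 i) v =
      (m + 1) * wedN (Function.update (fun _ : Fin (m + 1) => a) 0 b) v := by
  simp only [fam_zero, wedN_slot a b _ v, Finset.sum_const, Finset.card_univ, Fintype.card_fin,
    nsmul_eq_mul]
  push_cast
  ring

theorem top_congr {m : ℕ} (a : V [⋀^Fin 2]→L[ℝ] ℝ) {u u' : Fin m × Bool → V}
    (h : ∀ p q, a ![u p, u q] = a ![u' p, u' q]) : top (n := m) a u = top (n := m) a u' := by
  unfold top
  simp only [wedN_apply, h]

open Pool.Agent.Y501.SY in
theorem exists_pairN {m : ℕ} (e : Module.Basis (Fin (m + 1) × Bool) ℝ V)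
    (a : V [⋀^Fin 2]→L[ℝ] ℝ) (u : Fin m × Bool → V) (hu : top (n := m) a u ≠ 0) (v : V)
    (hv : ∀ w, a ![v, w] = 0) (l : V →L[ℝ] ℝ) (hl : l v ≠ 0) :
    ∃ l' : V →L[ℝ] ℝ,
      wedN (Function.update (fun _ : Fin (m + 1) => a) 0 (wedge l l')) e ≠ 0 := by
  have hfd : FiniteDimensional ℝ V := e.finiteDimensional_of_finite
  have hv' : ∀ w, a ![w, v] = 0 := fun w => by rw [a_swap, hv, neg_zero]
  let u' : Fin m × Bool → V := fun k => u k + (-(l (u k) / l v)) • v
  have hu' : top (n := m) a u' ≠ 0 := by
    rw [← top_congr a (u := u) (u' := u') fun p q => ?_]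
    · exact hu
    · change _ = a ![u p + (-(l (u p) / l v)) • v, u q + (-(l (u q) / l v)) • v]
      rw [a_add_left, a_add_right, a_smul_left, a_smul_right, hv, hv']
      ring
  have hlu' : ∀ k, l (u' k) = 0 := by
    intro k
    change l (u k + (-(l (u k) / l v)) • v) = 0
    rw [map_add, map_smul, smul_eq_mul]
    field_simp
    ring
  have hlt : Submodule.span ℝ (Set.range (Sum.elim (fun _ : Unit => v) u')) < ⊤ := by
    refine lt_top_iff_ne_top.2 fun h => ?_
    have h1 := finrank_range_le_card (R := ℝ) (Sum.elim (fun _ : Unit => v) u')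
    unfold Set.finrank at h1
    rw [h, finrank_top, Module.finrank_eq_card_basis e] at h1
    simp only [Fintype.card_prod, Fintype.card_fin, Fintype.card_bool, Fintype.card_sum,
      Fintype.card_unit] at h1
    omega
  obtain ⟨f, hf, hker⟩ := Submodule.exists_le_ker_of_lt_top _ hlt
  have hf0 : ∀ i, f (Sum.elim (fun _ : Unit => v) u' i) = 0 := fun i =>
    LinearMap.mem_ker.1 (hker (Submodule.subset_span (mem_range_self i)))
  have fv : f v = 0 := hf0 (Sum.inl ())
  have fu : ∀ k, f (u' k) = 0 := fun k => hf0 (Sum.inr k)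
  obtain ⟨y, hy⟩ : ∃ y, f y ≠ 0 := by
    by_contra h
    push Not at h
    exact hf (LinearMap.ext h)
  refine ⟨LinearMap.toContinuousLinearMap f, fun h0 => ?_⟩
  have h1 := wedN_frame e (Function.update (fun _ : Fin (m + 1) => a) 0
    (wedge l (LinearMap.toContinuousLinearMap f))) (frm (fun b => cond b y v) u')
  rw [h0, zero_mul, wedN_frm] at h1
  · have h2 : wedge l (LinearMap.toContinuousLinearMap f) ![v, y] = l v * f y := by
      rw [wedge_apply]
      change l v * f y - l y * f v = _
      rw [fv, mul_zero, sub_zero]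
    have h3 : 2 * (l v * f y) * top (n := m) a u' = 0 := by
      rw [← h2]
      exact h1
    exact mul_ne_zero (mul_ne_zero two_ne_zero (mul_ne_zero hl hy)) hu' h3
  · intro p k _
    rw [wedge_apply]
    change l p * f (u' k) - l (u' k) * f p = 0
    rw [fu, hlu' k]
    ring

end

end Pool.Agent.Q235.SN
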