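import Pool.Agent.Q235.SN.PfN2

/-!
Project SN: the ratio of a product of `n` two-forms to the top power of a nondegenerate one.
-/

set_option autoImplicit false

open Set Filter Topology MeasureTheory
open scoped Manifold ContDiff

noncomputable section

namespace Pool.Agent.Q235.SN

open Pool.Agent.Y501.SYP
open Pool.Agent.Y501 (SY.E)

section

variable {d n : ℕ} {X : Type} [TopologicalSpace X] [ChartedSpace (ES d) X]

/-- the ratio of the product of the `s i` and the top power of `τ` at `x` -/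
def ratN (e : Module.Basis (Fin n × Bool) ℝ (ES d)) (τ : Form (ES d) X 2)
    (s : Fin n → Form (ES d) X 2) (x : X) : ℝ :=
  wedN (V := ES d) (fun i => s i x) e / top (n := n) (V := ES d) (τ x) e

/-- joint continuity of a family of two-forms -/
def JC {B : Type} [TopologicalSpace B] (s : B → Form (ES d) X 2) : Prop :=
  ∀ x₀ : X, ContinuousOn (fun q : B × (ES d) => pb (chartAt (ES d) x₀).symm (s q.1) q.2)
    (univ ×ˢ (chartAt (ES d) x₀).target)

theorem JC.const {B : Type} [TopologicalSpace B] [IsManifold 𝓘(ℝ, ES d) ∞ X]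
    {η : Form (ES d) X 2} (hη : IsSmooth η) : JC (fun _ : B => η) := by
  intro x₀
  have h1 := (hη (chartAt (ES d) x₀).target (chartAt (ES d) x₀).symm
    ⟨(chartAt (ES d) x₀).open_target, contMDiffOn_chart_symm⟩).continuousOn
  exact h1.comp continuousOn_snd (fun q hq => hq.2)

/-- the family `σ + s η` -/
theorem JC.line [IsManifold 𝓘(ℝ, ES d) ∞ X] {σ η : Form (ES d) X 2} (hσ : IsSmooth σ)
    (hη : IsSmooth η) : JC (fun (s : ℝ) (x : X) => σ x + s • η x) := by
  intro x₀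
  have h1 := JC.const (B := ℝ) hσ x₀
  have h2 := JC.const (B := ℝ) hη x₀
  exact h1.add (continuousOn_fst.smul h2)

theorem pb_apply (φ : ES d → X) (σ : Form (ES d) X 2) (p v w : ES d) :
    pb φ σ p ![v, w] = σ (φ p) ![mfderiv 𝓘(ℝ, ES d) 𝓘(ℝ, ES d) φ p v,
      mfderiv 𝓘(ℝ, ES d) 𝓘(ℝ, ES d) φ p w] := by
  have h : (fun i => mfderiv 𝓘(ℝ, ES d) 𝓘(ℝ, ES d) φ p (![v, w] i)) =
      (![mfderiv 𝓘(ℝ, ES d) 𝓘(ℝ, ES d) φ p v, mfderiv 𝓘(ℝ, ES d) 𝓘(ℝ, ES d) φ p w] :
        Fin 2 → TangentSpace 𝓘(ℝ, ES d) (φ p)) := by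
    funext i
    fin_cases i <;> rfl
  exact congrArg (fun m => σ (φ p) m) h

theorem wedN_pb (φ : ES d → X) (s : Fin n → Form (ES d) X 2) (p : ES d)
    (v : Fin n × Bool → ES d) :
    wedN (fun i => pb φ (s i) p) v = wedN (V := ES d) (fun i => s i (φ p))
      (fun i => mfderiv 𝓘(ℝ, ES d) 𝓘(ℝ, ES d) φ p (v i)) := by
  refine (wedN_apply _ _).trans (Eq.trans ?_ (wedN_apply (V := ES d) _ _).symm)
  simp only [pb_apply]
  rfl

variable [IsManifold 𝓘(ℝ, ES d) ∞ X]

/-- the derivative of the inverse of a chart -/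
theorem det_symm_ne (e : Module.Basis (Fin n × Bool) ℝ (ES d)) (x₀ : X) {p : ES d}
    (hp : p ∈ (chartAt (ES d) x₀).target) :
    e.det (fun i => (mfderiv 𝓘(ℝ, ES d) 𝓘(ℝ, ES d) (chartAt (ES d) x₀).symm p (e i) : ES d))
      ≠ 0 := by
  have hcd : (chartAt (ES d) x₀).MDifferentiable 𝓘(ℝ, ES d) 𝓘(ℝ, ES d) :=
    mdifferentiable_chart (I := 𝓘(ℝ, ES d)) x₀
  let A := hcd.symm.mfderiv hp
  let A' : ES d ≃L[ℝ] ES d := A
  have h1 := Module.Basis.isUnit_det e (e.map A'.toLinearEquiv)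
  have h2 : (⇑(e.map A'.toLinearEquiv)) = fun i =>
      (mfderiv 𝓘(ℝ, ES d) 𝓘(ℝ, ES d) (chartAt (ES d) x₀).symm p (e i) : ES d) := by
    funext i
    rw [Module.Basis.map_apply]
    rfl
  rw [h2] at h1
  exact h1.ne_zero

theorem ratN_chart (e : Module.Basis (Fin n × Bool) ℝ (ES d)) {τ : Form (ES d) X 2}
    (hτ : ∀ x, top (n := n) (V := ES d) (τ x) e ≠ 0)
    (s : Fin n → Form (ES d) X 2) (x₀ : X) {p : ES d} (hp : p ∈ (chartAt (ES d) x₀).target) :
    ratN e τ s ((chartAt (ES d) x₀).symm p) =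
      wedN (fun i => pb (chartAt (ES d) x₀).symm (s i) p) e /
        top (n := n) (pb (chartAt (ES d) x₀).symm τ p) e ∧
      top (n := n) (pb (chartAt (ES d) x₀).symm τ p) e ≠ 0 := by
  have hd := det_symm_ne e x₀ hp
  have ht : top (n := n) (pb (chartAt (ES d) x₀).symm τ p) e =
      top (n := n) (V := ES d) (τ ((chartAt (ES d) x₀).symm p)) (fun i =>
        (mfderiv 𝓘(ℝ, ES d) 𝓘(ℝ, ES d) (chartAt (ES d) x₀).symm p (e i) : ES d)) :=
    wedN_pb (chartAt (ES d) x₀).symm (fun _ => τ) p e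
  rw [wedN_pb, ht]
  have h1 := wedN_frame e (fun _ : Fin n => τ ((chartAt (ES d) x₀).symm p))
    (fun i => (mfderiv 𝓘(ℝ, ES d) 𝓘(ℝ, ES d) (chartAt (ES d) x₀).symm p (e i) : ES d))
  have h2 := wedN_frame e (fun i : Fin n => s i ((chartAt (ES d) x₀).symm p))
    (fun i => (mfderiv 𝓘(ℝ, ES d) 𝓘(ℝ, ES d) (chartAt (ES d) x₀).symm p (e i) : ES d))
  have h3 : top (n := n) (V := ES d) (τ ((chartAt (ES d) x₀).symm p))
    (fun i => (mfderiv 𝓘(ℝ, ES d) 𝓘(ℝ, ES d) (chartAt (ES d) x₀).symm p (e i) : ES d)) ≠ 0 := by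
    unfold top
    erw [h1]
    exact mul_ne_zero (hτ _) hd
  refine ⟨?_, h3⟩
  unfold ratN top
  erw [h2, h1]
  rw [mul_div_mul_right _ _ hd]

theorem ratN_cont (e : Module.Basis (Fin n × Bool) ℝ (ES d)) {τ : Form (ES d) X 2}
    (hτs : IsSmooth τ) (hτ : ∀ x, top (n := n) (V := ES d) (τ x) e ≠ 0) {B : Type}
    [TopologicalSpace B] {s : B → Fin n → Form (ES d) X 2} (hs : ∀ i, JC fun b => s b i) :
    Continuous fun q : B × X => ratN e τ (s q.1) q.2 := by
  rw [continuous_iff_continuousAt]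
  rintro ⟨b₀, x₀⟩
  let c := chartAt (ES d) x₀
  have hev : ∀ (u w : ES d), Continuous fun a : (ES d) [⋀^Fin 2]→L[ℝ] ℝ => a ![u, w] := by
    intro u w
    exact continuous_eval_const _
  have hw : ∀ {f : Fin n → B × ES d → (ES d) [⋀^Fin 2]→L[ℝ] ℝ} {S : Set (B × ES d)},
      (∀ i, ContinuousOn (f i) S) →
      ContinuousOn (fun q => wedN (fun i => f i q) e) S := by
    intro f S hf
    simp only [wedN_apply]
    refine continuousOn_finsetSum _ fun σ _ => continuousOn_const.mul ?_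
    exact continuousOn_finsetProd _ fun i _ => (hev _ _).comp_continuousOn (hf i)
  have hτj := JC.const (B := B) hτs
  have hc1 : ContinuousOn (fun q : B × ES d => wedN (fun i => pb c.symm (s q.1 i) q.2) e /
      top (n := n) (pb c.symm τ q.2) e) (univ ×ˢ c.target) := by
    refine (hw fun i => hs i x₀).div (hw fun _ => hτj x₀) ?_
    rintro ⟨b, p⟩ ⟨_, hp⟩
    exact (ratN_chart e hτ (fun _ => τ) x₀ hp).2
  have hopen : IsOpen ((univ : Set B) ×ˢ c.target) := isOpen_univ.prod c.open_target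
  have hx : x₀ ∈ c.source := mem_chart_source (ES d) x₀
  have hc2 : ContinuousAt (fun q : B × ES d => wedN (fun i => pb c.symm (s q.1 i) q.2) e /
      top (n := n) (pb c.symm τ q.2) e) (b₀, c x₀) :=
    hc1.continuousAt (hopen.mem_nhds ⟨mem_univ _, c.map_source hx⟩)
  have hc3 : ContinuousAt (fun q : B × X => (q.1, c q.2)) (b₀, x₀) :=
    continuousAt_fst.prodMk ((c.continuousAt hx).comp continuousAt_snd)
  have hc4 := ContinuousAt.comp (f := fun q : B × X => (q.1, c q.2)) hc2 hc3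
  refine hc4.congr ?_
  have hnear : ∀ᶠ q : B × X in 𝓝 (b₀, x₀), q.2 ∈ c.source :=
    continuousAt_snd.eventually (c.open_source.mem_nhds hx)
  filter_upwards [hnear] with q hq
  have h1 := (ratN_chart e hτ (s q.1) x₀ (c.map_source hq)).1
  have h2 : (chartAt (ES d) x₀).symm (c q.2) = q.2 := c.left_inv hq
  rw [h2] at h1
  exact h1.symm

end

end Pool.Agent.Q235.SN
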