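import Pool.Agent.Q235.SZ.Pos
import Pool.Agent.Q235.SN.RatN

/-!
Project SN: an exact form whose product with the power of a degenerate form is positive over the
points where the latter is degenerate, in dimension `2 n`.
-/

set_option autoImplicit false

open Set Filter Topology MeasureTheory
open scoped Manifold ContDiff

noncomputable section

namespace Pool.Agent.Q235.SN

open Pool.Agent.Y501.SYP
open Pool.Agent.Q235.SZ (Fun2 ContL ThinL SmallFor glueL)

section lin

variable {V : Type} [NormedAddCommGroup V] [NormedSpace ℝ V]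

open Pool.Agent.Y501.SY in
theorem exists_pair0 {m : ℕ} (e : Module.Basis (Fin (m + 1) × Bool) ℝ V)
    (a : V [⋀^Fin 2]→L[ℝ] ℝ) (u : Fin m × Bool → V) (hu : top (n := m) a u ≠ 0) :
    ∃ l l' : V →L[ℝ] ℝ,
      wedN (Function.update (fun _ : Fin (m + 1) => a) 0 (wedge l l')) e ≠ 0 := by
  have hfd : FiniteDimensional ℝ V := e.finiteDimensional_of_finite
  have hlt : ∀ y : V, Submodule.span ℝ (Set.range (Sum.elim (fun _ : Unit => y) u)) < ⊤ := by
    intro y
    refine lt_top_iff_ne_top.2 fun h => ?_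
    have h1 := finrank_range_le_card (R := ℝ) (Sum.elim (fun _ : Unit => y) u)
    unfold Set.finrank at h1
    rw [h, finrank_top, Module.finrank_eq_card_basis e] at h1
    simp only [Fintype.card_prod, Fintype.card_fin, Fintype.card_bool, Fintype.card_sum,
      Fintype.card_unit] at h1
    omega
  have hex : ∀ y : V, ∃ f : V →ₗ[ℝ] ℝ, f ≠ 0 ∧ f y = 0 ∧ ∀ k, f (u k) = 0 := by
    intro y
    obtain ⟨f, hf, hker⟩ := Submodule.exists_le_ker_of_lt_top _ (hlt y)
    have hf0 : ∀ i, f (Sum.elim (fun _ : Unit => y) u i) = 0 := fun i =>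
      LinearMap.mem_ker.1 (hker (Submodule.subset_span (mem_range_self i)))
    exact ⟨f, hf, hf0 (Sum.inl ()), fun k => hf0 (Sum.inr k)⟩
  have hne : ∀ f : V →ₗ[ℝ] ℝ, f ≠ 0 → ∃ y, f y ≠ 0 := by
    intro f hf
    by_contra h
    push Not at h
    exact hf (LinearMap.ext h)
  obtain ⟨l, hl, -, hlu⟩ := hex 0
  obtain ⟨y, hy⟩ := hne l hl
  obtain ⟨f, hf, fy, fu⟩ := hex y
  obtain ⟨y', hy'⟩ := hne f hf
  refine ⟨LinearMap.toContinuousLinearMap l, LinearMap.toContinuousLinearMap f, fun h0 => ?_⟩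
  have h1 := wedN_frame e (Function.update (fun _ : Fin (m + 1) => a) 0
    (wedge (LinearMap.toContinuousLinearMap l) (LinearMap.toContinuousLinearMap f)))
    (frm (fun b => cond b y' y) u)
  rw [h0, zero_mul, wedN_frm] at h1
  · have h2 : wedge (LinearMap.toContinuousLinearMap l) (LinearMap.toContinuousLinearMap f)
        ![y, y'] = l y * f y' := by
      rw [wedge_apply]
      change l y * f y' - l y' * f y = _
      rw [fy, mul_zero, sub_zero]
    have h3 : 2 * (l y * f y') * top (n := m) a u = 0 := by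
      rw [← h2]
      exact h1
    exact mul_ne_zero (mul_ne_zero two_ne_zero (mul_ne_zero hy hy')) hu h3
  · intro p k _
    rw [wedge_apply]
    change l p * f (u k) - l (u k) * f p = 0
    rw [fu, hlu k]
    ring

end lin

section

variable {d m : ℕ} {X : Type} [TopologicalSpace X] [ChartedSpace (ES d) X]

variable [IsManifold 𝓘(ℝ, ES d) ∞ X]

attribute [local instance] cs mf

theorem exists_dd [T2Space X] (z : X) (l : ES d →L[ℝ] ℝ) :
    ∃ g : X → ℝ, SmoothFun (V := ES d) g ∧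
      ∀ v : TangentSpace 𝓘(ℝ, ES d) z, dd g z v = l v := by
  let c := chartAt (ES d) z
  have hz : z ∈ c.source := mem_chart_source (ES d) z
  have hcd : c.MDifferentiable 𝓘(ℝ, ES d) 𝓘(ℝ, ES d) :=
    mdifferentiable_chart (I := 𝓘(ℝ, ES d)) z
  let A : TangentSpace 𝓘(ℝ, ES d) z ≃L[ℝ] ES d := hcd.mfderiv hz
  have hA : ∀ v, A v = mfderiv 𝓘(ℝ, ES d) 𝓘(ℝ, ES d) c z v := fun v => rfl
  have hfd : FiniteDimensional ℝ (ES d) :=
    (EuclideanSpace.basisFun (Fin d) ℝ).toBasis.finiteDimensional_of_finite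
  obtain ⟨b⟩ : Nonempty (SmoothBumpFunction 𝓘(ℝ, ES d) z) := inferInstance
  let F : X → ES d := fun x => b x • c x
  have hF : ContMDiff 𝓘(ℝ, ES d) 𝓘(ℝ, ES d) ∞ F :=
    b.contMDiff_smul (contMDiffOn_chart (I := 𝓘(ℝ, ES d)))
  have hFc : F =ᶠ[𝓝 z] c := by
    filter_upwards [b.eventuallyEq_one] with x hx
    change b x • c x = c x
    rw [hx]
    exact one_smul ℝ (c x)
  let l' : ES d →L[ℝ] ℝ := l.comp (A.symm : ES d →L[ℝ] TangentSpace 𝓘(ℝ, ES d) z)
  refine ⟨fun x => l' (F x), l'.contDiff.contMDiff.comp hF, fun v => ?_⟩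
  have hcdz : MDifferentiableAt 𝓘(ℝ, ES d) 𝓘(ℝ, ES d) c z := hcd.mdifferentiableAt hz
  have e1 : (fun x => l' (F x)) =ᶠ[𝓝 z] l' ∘ c := by
    filter_upwards [hFc] with x hx
    change l' (F x) = l' (c x)
    rw [hx]
  unfold dd
  rw [e1.mfderiv_eq, mfderiv_comp z
    (l'.contDiff.contMDiff.mdifferentiableAt (n := 1) one_ne_zero) hcdz,
    mfderiv_eq_fderiv, ContinuousLinearMap.fderiv]
  change l (A.symm (A v)) = l v
  rw [A.symm_apply_apply]

/-- the functional of the construction -/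
def LL (e : Module.Basis (Fin (m + 1) × Bool) ℝ (ES d)) (τ s : Form (ES d) X 2) : Fun2 d X :=
  fun x =>
  { toFun := fun t => wedN (V := ES d) (Function.update (fun _ : Fin (m + 1) => s x) 0 t) e /
      top (n := m + 1) (V := ES d) (τ x) e
    map_add' := fun a b => by
      erw [wedN_add (V := ES d)]
      exact add_div _ _ _
    map_smul' := fun c a => by
      erw [wedN_smul (V := ES d)]
      exact mul_div_assoc _ _ _ }

omit [IsManifold 𝓘(ℝ, ES d) ∞ X] in
theorem LL_apply (e : Module.Basis (Fin (m + 1) × Bool) ℝ (ES d)) (τ s η : Form (ES d) X 2)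
    (x : X) : LL e τ s x (η x) = ratN e τ (Function.update (fun _ : Fin (m + 1) => s) 0 η) x := by
  have h : (fun i : Fin (m + 1) => (Function.update (fun _ : Fin (m + 1) => s) 0 η) i x) =
      Function.update (fun _ : Fin (m + 1) => s x) 0 (η x) := by
    funext i
    by_cases hi : i = 0
    · subst hi
      rw [Function.update_self, Function.update_self]
    · rw [Function.update_of_ne hi, Function.update_of_ne hi]
  unfold ratN
  rw [h]
  rfl

theorem dfdg_smooth {f g : X → ℝ} (hf : SmoothFun (V := ES d) f) (hg : SmoothFun (V := ES d) g) :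
    IsSmooth (V := ES d) (X := X) (Pool.Agent.Y501.SY.dfdg (d := d) f g) := by
  have h := (Pool.Agent.Y484.SY.t_GEN d X (fun _ => 1) f g contMDiff_const hf hg).2.1
  have h2 : Pool.Agent.Y501.SY.hdfdg (d := d) (fun _ => (1 : ℝ)) f g =
      Pool.Agent.Y501.SY.dfdg f g := by
    funext x; exact one_smul ℝ _
  rw [h2] at h
  exact (smooth_iff _).2 h

omit [IsManifold 𝓘(ℝ, ES d) ∞ X] in
theorem JC_upd {B : Type} [TopologicalSpace B] {s η : Form (ES d) X 2}
    (hs : JC (fun _ : B => s)) (hη : JC (fun _ : B => η)) (i : Fin (m + 1)) :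
    JC (fun _ : B => Function.update (fun _ : Fin (m + 1) => s) 0 η i) := by
  by_cases hi : i = 0
  · subst hi
    rw [Function.update_self]
    exact hη
  · rw [Function.update_of_ne hi]
    exact hs

theorem LL_cont (e : Module.Basis (Fin (m + 1) × Bool) ℝ (ES d)) {τ s : Form (ES d) X 2}
    (hτs : IsSmooth τ) (hτ : ∀ x, top (n := m + 1) (V := ES d) (τ x) e ≠ 0) (hs : IsSmooth s) :
    ContL (LL e τ s) := by
  intro f g hf hg
  have h1 := ratN_cont (B := Unit) e hτs hτ
    (s := fun _ => Function.update (fun _ : Fin (m + 1) => s) 0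
      (Pool.Agent.Y501.SY.dfdg (d := d) f g : Form (ES d) X 2))
    (JC_upd (JC.const hs) (JC.const (dfdg_smooth hf hg)))
  have h2 := h1.comp (continuous_const.prodMk continuous_id : Continuous fun x : X => ((), x))
  refine h2.congr fun x => ?_
  exact (LL_apply e τ s (Pool.Agent.Y501.SY.dfdg (d := d) f g : Form (ES d) X 2) x).symm

theorem thin_of_small [T2Space X] (e : Module.Basis (Fin (m + 1) × Bool) ℝ (ES d))
    {τ s : Form (ES d) X 2}
    (hτ : ∀ x, top (n := m + 1) (V := ES d) (τ x) e ≠ 0) {C : Set X} {z : X}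
    (u : Fin m × Bool → ES d) (hu : top (n := m) (V := ES d) (s z) u ≠ 0)
    (h : SmallFor s C z) : ThinL (LL e τ s) C z := by
  have hfd : FiniteDimensional ℝ (ES d) :=
    (EuclideanSpace.basisFun (Fin d) ℝ).toBasis.finiteDimensional_of_finite
  -- the two functions
  have key : ∃ g b : X → ℝ, SmoothFun (V := ES d) g ∧ SmoothFun (V := ES d) b ∧
      LL e τ s z (Pool.Agent.Y501.SY.dfdg (d := d) g b z) ≠ 0 ∧
      ∀ c : ℝ, ∃ N ∈ 𝓝 z, volume ((fun x => (c * g x, b x)) '' (C ∩ N)) = 0 := by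
    have conv : ∀ (g b : X → ℝ) (l l' : ES d →L[ℝ] ℝ),
        (∀ v : TangentSpace 𝓘(ℝ, ES d) z, dd g z v = l v) →
        (∀ v : TangentSpace 𝓘(ℝ, ES d) z, dd b z v = l' v) →
        wedN (V := ES d) (Function.update (fun _ : Fin (m + 1) => s z) 0
          (Pool.Agent.Y501.SY.wedge (V := ES d) l l')) e ≠ 0 →
        LL e τ s z (Pool.Agent.Y501.SY.dfdg (d := d) g b z) ≠ 0 := by
      intro g b l l' hl hl' hne
      have h1 : Pool.Agent.Y501.SY.dfdg (d := d) g b z =
          Pool.Agent.Y501.SY.wedge (V := ES d) l l' := by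
        unfold Pool.Agent.Y501.SY.dfdg
        have h2 : (Pool.Agent.Y501.SY.dd (d := d) b z : ES d →L[ℝ] ℝ) = l' := by
          ext v
          exact hl' v
        have h3 : (Pool.Agent.Y501.SY.dd (d := d) g z : ES d →L[ℝ] ℝ) = l := by
          ext v
          exact hl v
        exact congrArg₂ (fun j k => Pool.Agent.Y501.SY.wedge (V := ES d) j k) h3 h2
      rw [h1]
      exact div_ne_zero hne (hτ z)
    rcases h with ⟨N, hN, hN0⟩ | ⟨v, hv, hvT⟩
    · obtain ⟨l, l', hll⟩ := exists_pair0 (V := ES d) e (s z) u hu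
      obtain ⟨g, hg, hgl⟩ := exists_dd z l
      obtain ⟨b, hb, hbl⟩ := exists_dd z l'
      refine ⟨g, b, hg, hb, conv g b l l' hgl hbl hll, fun c => ?_⟩
      obtain ⟨N', hN', h0⟩ := Pool.Agent.Y391.SY.local_null (d := d) (C := C ∩ N)
        (f := fun x => c * g x) (g := b) ((Pool.Agent.Y501.SY.SmoothFun.const c).mul hg) hb z hN0
      refine ⟨N ∩ N', Filter.inter_mem hN hN', ?_⟩
      rwa [← inter_assoc]
    · unfold ZT at hvT
      push Not at hvT
      obtain ⟨g, hg, hgC, hgv⟩ := hvT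
      let l : ES d →L[ℝ] ℝ := mfderiv 𝓘(ℝ, ES d) 𝓘(ℝ, ℝ) g z
      obtain ⟨l', hl'⟩ := exists_pairN (V := ES d) e (s z) u hu v hv l hgv
      obtain ⟨b, hb, hbl⟩ := exists_dd z l'
      refine ⟨g, b, hg, hb, conv g b l l' (fun v => rfl) hbl hl',
        fun c => ⟨univ, univ_mem, ?_⟩⟩
      refine measure_mono_null (t := ({0} : Set ℝ) ×ˢ (univ : Set ℝ)) ?_ ?_
      · rintro _ ⟨x, ⟨hx, _⟩, rfl⟩
        refine ⟨?_, mem_univ _⟩
        change c * g x = 0
        rw [hgC x hx, mul_zero]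
      · rw [Measure.volume_eq_prod, Measure.prod_prod, Real.volume_singleton, zero_mul]
  obtain ⟨g, b, hg, hb, hgb, hnull⟩ := key
  rcases lt_or_gt_of_ne hgb with hlt | hgt
  · obtain ⟨N, hN, h0⟩ := hnull (-1)
    refine ⟨1, fun _ => fun x => (-1) * g x, fun _ => b, N, hN,
      fun _ => (Pool.Agent.Y501.SY.SmoothFun.const (-1)).mul hg, fun _ => hb, fun _ => h0, ?_⟩
    rw [Fin.sum_univ_one]
    have h1 : Pool.Agent.Y501.SY.dfdg (d := d) (fun x => (-1) * g x) b z =
        (-1 : ℝ) • Pool.Agent.Y501.SY.dfdg (d := d) g b z := by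
      refine Pool.Agent.Q235.SZ.ext2 _ _ fun v w => ?_
      change _ = (-1 : ℝ) * Pool.Agent.Y501.SY.dfdg (d := d) g b z ![v, w]
      rw [Pool.Agent.Y501.SY.dfdg_apply, Pool.Agent.Y501.SY.dfdg_apply,
        Pool.Agent.Y501.SY.dd_mul (Pool.Agent.Y501.SY.SmoothFun.const (-1)) hg,
        Pool.Agent.Y501.SY.dd_mul (Pool.Agent.Y501.SY.SmoothFun.const (-1)) hg]
      have h6 : ∀ w : TangentSpace (𝓡 d) z,
          Pool.Agent.Y501.SY.dd (d := d) (fun _ : X => (-1 : ℝ)) z w = 0 := by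
        intro w
        unfold Pool.Agent.Y501.SY.dd
        rw [mfderiv_const]; rfl
      rw [h6, h6]
      ring
    rw [h1, map_smul, smul_eq_mul]
    linarith
  · obtain ⟨N, hN, h0⟩ := hnull 1
    simp only [one_mul] at h0
    refine ⟨1, fun _ => g, fun _ => b, N, hN, fun _ => hg, fun _ => hb, fun _ => h0, ?_⟩
    rw [Fin.sum_univ_one]
    exact hgt

theorem ratN_cont1 (e : Module.Basis (Fin (m + 1) × Bool) ℝ (ES d)) {τ s : Form (ES d) X 2}
    (hτs : IsSmooth τ) (hτ : ∀ x, top (n := m + 1) (V := ES d) (τ x) e ≠ 0) (hs : IsSmooth s) :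
    Continuous (ratN e τ (fun _ : Fin (m + 1) => s)) := by
  have h0 : ∀ i : Fin (m + 1), JC (fun _ : Unit => (fun _ : Fin (m + 1) => s) i) :=
    fun i => JC.const hs
  have h1 := ratN_cont (B := Unit) e hτs hτ (s := fun _ => fun _ : Fin (m + 1) => s) h0
  have h2 : Continuous fun x : X => ((), x) := continuous_const.prodMk continuous_id
  have h3 := Continuous.comp (g := fun q : Unit × X => ratN e τ (fun _ : Fin (m + 1) => s) q.2)
    h1 h2
  exact h3

/-- An exact form positive over the degenerate points. -/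
theorem exists_pos [CompactSpace X] [T2Space X]
    (e : Module.Basis (Fin (m + 1) × Bool) ℝ (ES d)) {τ s : Form (ES d) X 2} (hτs : IsSmooth τ)
    (hτ : ∀ x, top (n := m + 1) (V := ES d) (τ x) e ≠ 0) (hs : IsSmooth s) (D : Set X)
    (hD0 : D = {x | ratN e τ (fun _ : Fin (m + 1) => s) x = 0})
    (hne : ∀ z ∈ D, ∃ u : Fin m × Bool → ES d, top (n := m) (V := ES d) (s z) u ≠ 0)
    (hsmall : ∀ z ∈ D, SmallFor s (connectedComponentIn D z) z) :
    ∃ (α : Form (ES d) X 1) (η : Form (ES d) X 2), IsSmooth α ∧ IsSmooth η ∧ IsD α η ∧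
      IsClosedForm η ∧ ∀ x ∈ D,
        0 < ratN e τ (Function.update (fun _ : Fin (m + 1) => s) 0 η) x := by
  have hc := ratN_cont1 e hτs hτ hs
  have hD : IsCompact D := by
    rw [hD0]
    exact (isClosed_eq hc continuous_const).isCompact
  obtain ⟨α, η, hpair, hpos⟩ := glueL (d := d) (X := X) (LL_cont e hτs hτ hs) hD
    (fun z hz => by
      obtain ⟨u, hu⟩ := hne z hz
      exact thin_of_small e hτ u hu (hsmall z hz))
  obtain ⟨h1, h2, h3, h4⟩ := hpair.props Pool.Agent.Y484.SY.t_GEN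
  refine ⟨α, η, (smooth_iff α).2 h1, (smooth_iff η).2 h2, (isD_iff α η).2 h3,
    (closed_iff η).2 h4, fun x hx => ?_⟩
  exact lt_of_lt_of_eq (hpos x hx) (LL_apply e τ s η x)

end

end Pool.Agent.Q235.SN
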